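import Mathlib
import Pool.Agent.Lib.MP_9ec89f_lc.Defs
import Pool.Agent.Lib.MP_9ec89f_lc.Upper

/-!
# Tight space bounds for alternating one-counter automata (problem MP_9ec89f_lc, Q1)

The definitions are in `Pool.Agent.Lib.MP_9ec89f_lc.Defs`. The lower bounds are proved in
`Pool.Agent.Lib.MP_9ec89f_lc.Weak` and `Pool.Agent.Lib.MP_9ec89f_lc.Lower`, the upper bounds in
`Pool.Agent.Lib.MP_9ec89f_lc.Upper` (the witnesses are the unary language of the words of length
`2 ^ n + 2 * n` and the binary language of the words `b ^ n a ^ (2 ^ n + n)`).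
-/

namespace Pool.Agent.Results.MP_9ec89f_lc.TightBounds

open Pool.Agent.Lib.MP_9ec89f_lc Asymptotics Filter

/-- An upper and a lower bound give a tight bound. -/
theorem tight {m : Mode} {α : Type} {σ : SpaceNotion} {s : ℕ → ℕ} {M : ACA α}
    (hreal : M.IsRealtime) (hreg : ¬ M.language.IsRegular) (hs : M.WorksInSpace s σ)
    (hlow : ∀ (L : Language α) (t : ℕ → ℕ), ¬ L.IsRegular →
      (fun n => (t n : ℝ)) =o[atTop] (fun n => (s n : ℝ)) →
      ∀ N : ACA α, N.language = L → N.WorksInSpace t σ → False) :
    IsTightBound m α σ s := by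
  refine ⟨⟨M.language, s, hreg, isBigO_refl _ _, M, ?_, rfl, hs⟩, ?_⟩
  · cases m
    · exact hreal
    · trivial
  · rintro L t h1 h2 ⟨N, -, h3, h4⟩
    exact hlow L t h1 h2 N h3 h4

/-- The tight space bounds, the same for realtime and for one-way alternating one-counter
automata: `n` for strong space (unary and binary), `n` for middle space on unary languages,
`log n` for middle space on binary languages, and `log n` for weak space (unary and binary). -/
theorem result (m : Mode) :
    IsTightBound m (Fin 1) .strong (fun n => n) ∧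
    IsTightBound m (Fin 2) .strong (fun n => n) ∧
    IsTightBound m (Fin 1) .middle (fun n => n) ∧
    IsTightBound m (Fin 2) .middle (fun n => Nat.log 2 n) ∧
    IsTightBound m (Fin 1) .weak (fun n => Nat.log 2 n) ∧
    IsTightBound m (Fin 2) .weak (fun n => Nat.log 2 n) := by
  have hU : ¬ (mach (fun _ : Fin 1 => true) St.S).language.IsRegular := by
    rw [mach_lang_unary]; exact LU_not_regular
  have hB : ¬ (mach isZ St.P).language.IsRegular := by
    rw [mach_lang_binary]; exact LBin_not_regular
  refine ⟨?_, ?_, ?_, ?_, ?_, ?_⟩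
  · exact tight mach_realtime hU mach_strong fun L t h1 h2 N h3 h4 => strong_lower h1 h2 h3 h4
  · exact tight mach_realtime hB mach_strong fun L t h1 h2 N h3 h4 => strong_lower h1 h2 h3 h4
  · exact tight mach_realtime hU (middle_of_strong mach_strong) fun L t h1 h2 N h3 h4 =>
      middle_lower_unary h1 h2 h3 h4
  · exact tight mach_realtime hB mach_middle_binary fun L t h1 h2 N h3 h4 =>
      weak_lower h1 h2 h3 (weak_of_middle h4)
  · exact tight mach_realtime hU mach_weak_unary fun L t h1 h2 N h3 h4 =>
      weak_lower h1 h2 h3 h4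
  · exact tight mach_realtime hB (weak_of_middle mach_middle_binary) fun L t h1 h2 N h3 h4 =>
      weak_lower h1 h2 h3 h4

end Pool.Agent.Results.MP_9ec89f_lc.TightBounds
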